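import Pool.Agent.H38.AP.Sub

/-!
# Groups acting on trees as colimits of groups acting on trees with finitely generated edge stabilisers
-/

set_option autoImplicit false

namespace Pool.Agent.H38.AP

open Pool.Agent.H93.TR Pool.Agent.H98.FJ

variable {C : (G : Type) → [Group G] → Prop}

theorem approx (hC : Inherits C) {G V R : Type} [Group G] [MulAction G V] (D : Dat G V R) {v w : V}
    (hvw : D.X.Adj v w) (hT : ∀ H : Ix D, C (Gp D H)) : C G :=
  hC.colim (Ix D) (Gp D) (fun _ _ h => FF h) G (fun H => pr G (YY D H) (PP D H)) (isColimit hvw) hT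

/-- the stabiliser of a vertex of the coset graph fixes the image -/
theorem stab_le {G V R : Type} [Group G] [MulAction G V] (D : Dat G V R) (H : Ix D) (z : UU D H) (g : G)
    (hg : g • z = z) : g • pp D H z = pp D H z := by
  rw [← pp_smul, hg]

section mid

variable {G W : Type} [Group G] [MulAction G W] {S : SimpleGraph W}

/-- full stabilisers at the vertices which are not midpoints, finitely generated subgroups at the midpoints -/
noncomputable def Dm (hS : OnTree G S) (Mid : W → Prop) (w : W) : Dat G W (MulAction.orbitRel.Quotient G W) where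
  X := S
  ρ := Quotient.out
  J r K := (¬ Mid r.out ∧ K = MulAction.stabilizer G r.out) ∨
    (Mid r.out ∧ K.FG ∧ ∀ k ∈ K, k • r.out = r.out)
  hX := hS
  hs v := by
    have h : (MulAction.orbitRel G W) ((Quotient.mk _ v : MulAction.orbitRel.Quotient G W).out) v :=
      Quotient.mk_out v
    obtain ⟨g, hg⟩ := MulAction.orbitRel_apply.1 h
    refine ⟨Quotient.mk _ v, g⁻¹, ?_⟩
    rw [← hg]
    exact inv_smul_smul g v
  hi r r' g h := by
    rw [← Quotient.out_eq r, ← Quotient.out_eq r']
    refine (Quotient.sound ?_).symm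
    exact MulAction.orbitRel_apply.2 ⟨g, h⟩
  fx r K h k hk := by
    rcases h with ⟨-, rfl⟩ | ⟨-, -, h⟩
    · exact hk
    · exact h k hk
  ne r := by
    by_cases h : Mid r.out
    · exact ⟨⊥, Or.inr ⟨h, ⟨∅, by simp⟩, fun k hk => by rw [Subgroup.mem_bot.1 hk, one_smul]⟩⟩
    · exact ⟨_, Or.inl ⟨h, rfl⟩⟩
  dir r K K' h h' := by
    rcases h with ⟨h1, rfl⟩ | ⟨h1, h2, h3⟩
    · rcases h' with ⟨-, rfl⟩ | ⟨h4, -⟩
      · exact ⟨_, Or.inl ⟨h1, rfl⟩, le_rfl, le_rfl⟩
      · exact (h1 h4).elim
    · rcases h' with ⟨h4, -⟩ | ⟨-, h5, h6⟩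
      · exact (h4 h1).elim
      · refine ⟨K ⊔ K', Or.inr ⟨h1, h2.sup h5, ?_⟩, le_sup_left, le_sup_right⟩
        have : K ⊔ K' ≤ MulAction.stabilizer G r.out := sup_le h3 h6
        exact this
  big r K c h hc := by
    rcases h with ⟨h1, rfl⟩ | ⟨h1, h2, h3⟩
    · exact ⟨_, Or.inl ⟨h1, rfl⟩, le_rfl, hc⟩
    · refine ⟨K ⊔ Subgroup.zpowers c, Or.inr ⟨h1, h2.sup ?_, ?_⟩, le_sup_left,
        (le_sup_right : Subgroup.zpowers c ≤ _) (Subgroup.mem_zpowers c)⟩
      · exact ⟨{c}, by simp [Subgroup.zpowers_eq_closure]⟩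
      · have : K ⊔ Subgroup.zpowers c ≤ MulAction.stabilizer G r.out :=
          sup_le h3 ((Subgroup.zpowers_le).2 hc)
        exact this
  r0 := Quotient.mk _ w

/-- the bipartite case -/
theorem mid (hC : Inherits C) (hS : OnTree G S) (Mid : W → Prop) (hm : ∀ (g : G) (a : W), Mid (g • a) ↔ Mid a)
    (hadj : ∀ a b, S.Adj a b → (Mid a ↔ ¬ Mid b)) (hst : ∀ a b, S.Adj a b → Mid a → ∀ g : G, g • a = a → g • b = b)
    {v w : W} (hvw : S.Adj v w)
    (hT : ∀ (M T : Type) [Group M] [MulAction M T] (Y : SimpleGraph T), OnTree M Y → NoInv Y (⊤ : Subgroup M) →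
      (∀ t : T, ∃ (a : W) (f : MulAction.stabilizer M t →* MulAction.stabilizer G a), Function.Injective f) →
      (∀ s t : T, Y.Adj s t → Group.FG (MulAction.stabilizer M s ⊓ MulAction.stabilizer M t : Subgroup M) ∧
        ∃ (a b : W), S.Adj a b ∧ Mid a ∧
          ∃ f : (MulAction.stabilizer M s ⊓ MulAction.stabilizer M t : Subgroup M) →* MulAction.stabilizer G a,
            Function.Injective f) → C M) : C G := by
  refine approx hC (Dm hS Mid w) hvw ?_
  let D := Dm hS Mid w
  change ∀ H : Ix D, C (Gp D H)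
  intro H
  have hρ : ∀ r, D.ρ r = r.out := fun r => rfl
  have hX : D.X = S := rfl
  -- the stabilisers of the midpoints of the coset graph
  have hmid : ∀ z : UU D H, Mid (pp D H z) → (MulAction.stabilizer G z).FG := by
    intro z hz
    obtain ⟨r, g, rfl⟩ := vx_surj D H z
    rw [pp_vx, hm, hρ] at hz
    rcases H.2 r with ⟨h1, -⟩ | ⟨-, h2, -⟩
    · exact (h1 hz).elim
    · have e : MulAction.stabilizer G (vx D H r g) = (H.1 r).map (MulAut.conj g).toMonoidHom := by
        ext k
        rw [MulAction.mem_stabilizer_iff, stab_vx, Subgroup.mem_map]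
        constructor
        · intro hk
          refine ⟨_, hk, ?_⟩
          show g * (g⁻¹ * k * g) * g⁻¹ = k
          group
        · rintro ⟨l, hl, rfl⟩
          show g⁻¹ * (g * l * g⁻¹) * g ∈ H.1 r
          have : g⁻¹ * (g * l * g⁻¹) * g = l := by group
          rw [this]
          exact hl
      rw [e]
      obtain ⟨F, hF⟩ := h2
      classical
      refine ⟨F.image (MulAut.conj g).toMonoidHom, ?_⟩
      rw [Finset.coe_image, ← MonoidHom.map_closure, hF]
  have hnmid : ∀ z : UU D H, ¬ Mid (pp D H z) → ∀ k : G, k • pp D H z = pp D H z → k • z = z := by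
    intro z hz k hk
    obtain ⟨r, g, rfl⟩ := vx_surj D H z
    rw [pp_vx] at hk
    rw [pp_vx, hm, hρ] at hz
    rcases H.2 r with ⟨-, h2⟩ | ⟨h1, -⟩
    · rw [stab_vx, h2, MulAction.mem_stabilizer_iff, mul_smul, mul_smul]
      rw [hρ] at hk
      rw [hk, inv_smul_smul]
    · exact (hz h1).elim
  have hpi : ∀ (m : Gp D H) (t : TT D H), pr G (YY D H) (PP D H) m • QQ D H t = QQ D H (m • t) := by
    intro m t
    show _ • pp D H (PP D H t) = pp D H (PP D H (m • t))
    rw [smul_pi m, pp_smul]
  have hpair : ∀ s t : TT D H, (YY D H).Adj s t → Mid (QQ D H s) →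
      (MulAction.stabilizer G (PP D H s) ⊓ MulAction.stabilizer G (PP D H t) : Subgroup G) =
        MulAction.stabilizer G (PP D H s) := by
    intro s t hst' hs
    have h1 : S.Adj (QQ D H s) (QQ D H t) := QQ_adj D H s t hst'
    refine inf_eq_left.2 ?_
    intro k hk
    refine hnmid _ ((hadj _ _ h1).1 hs) k ?_
    exact hst _ _ h1 hs k (stab_le D H _ k hk)
  refine hT (Gp D H) (TT D H) (YY D H) (onTree (YY_tree D H)) ?_ ?_ ?_
  · rintro m - s t hst' h1 h2
    have h3 : S.Adj (QQ D H s) (QQ D H t) := QQ_adj D H s t hst'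
    have h4 := hpi m s
    rw [h1] at h4
    have h5 := hm (pr G (YY D H) (PP D H) m) (QQ D H s)
    rw [h4] at h5
    have h6 := hadj _ _ h3
    tauto
  · intro t
    obtain ⟨e⟩ := stab_equiv (YY_tree D H) (YY_cov D H) (ZZ_smul D H) t
    refine ⟨QQ D H t, (Subgroup.inclusion (fun k hk => stab_le D H _ k hk)).comp e.symm.toMonoidHom, ?_⟩
    intro a b h
    have h1 := congrArg (fun x : MulAction.stabilizer G (QQ D H t) => (x : G)) h
    exact e.symm.injective (Subtype.ext h1)
  · intro s t hst'
    obtain ⟨e⟩ := edge_equiv (YY_tree D H) (YY_cov D H) (ZZ_smul D H) s t hst'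
    have h1 : S.Adj (QQ D H s) (QQ D H t) := QQ_adj D H s t hst'
    have key : ∀ a b : TT D H, (YY D H).Adj a b → Mid (QQ D H a) →
        (MulAction.stabilizer G (PP D H s) ⊓ MulAction.stabilizer G (PP D H t) : Subgroup G) =
          MulAction.stabilizer G (PP D H a) →
        Group.FG (MulAction.stabilizer (Gp D H) s ⊓ MulAction.stabilizer (Gp D H) t : Subgroup (Gp D H)) ∧
        ∃ (a b : W), S.Adj a b ∧ Mid a ∧
          ∃ f : (MulAction.stabilizer (Gp D H) s ⊓ MulAction.stabilizer (Gp D H) t : Subgroup (Gp D H)) →*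
            MulAction.stabilizer G a, Function.Injective f := by
      intro a b hab ha hE
      refine ⟨?_, QQ D H a, QQ D H b, QQ_adj D H a b hab, ha, ?_⟩
      · have h2 : (MulAction.stabilizer G (PP D H s) ⊓ MulAction.stabilizer G (PP D H t) : Subgroup G).FG := by
          rw [hE]
          exact hmid _ ha
        have h3 : Group.FG (MulAction.stabilizer G (PP D H s) ⊓ MulAction.stabilizer G (PP D H t) : Subgroup G) :=
          (Group.fg_iff_subgroup_fg _).2 h2
        exact Group.fg_of_surjective (hG := h3) (f := e.toMonoidHom) e.surjective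
      · refine ⟨(Subgroup.inclusion (fun k hk => ?_)).comp e.symm.toMonoidHom, ?_⟩
        · rw [hE] at hk
          exact stab_le D H _ k hk
        · intro x y h
          have h1 := congrArg (fun x : MulAction.stabilizer G (QQ D H a) => (x : G)) h
          exact e.symm.injective (Subtype.ext h1)
    by_cases hs : Mid (QQ D H s)
    · exact key s t hst' hs (hpair s t hst' hs)
    · have ht : Mid (QQ D H t) := by
        have := hadj _ _ h1
        tauto
      refine key t s hst'.symm ht ?_
      rw [inf_comm]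
      exact hpair t s hst'.symm ht

end mid

/-- **Approximation.** A group acts on a tree without inversions. If every group which acts on a tree such that the vertex
stabilisers embed in vertex stabilisers and the edge stabilisers are finitely generated and embed in edge stabilisers is in the
class, then so is the given group. -/
theorem fg_edges (hC : Inherits C) {G V : Type} [Group G] [MulAction G V] {X : SimpleGraph V} (hX : OnTree G X)
    (hinv : NoInv X (⊤ : Subgroup G))
    (hT : ∀ (M T : Type) [Group M] [MulAction M T] (Y : SimpleGraph T), OnTree M Y → NoInv Y (⊤ : Subgroup M) →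
      (∀ t : T, ∃ (x : V) (f : MulAction.stabilizer M t →* MulAction.stabilizer G x), Function.Injective f) →
      (∀ s t : T, Y.Adj s t → Group.FG (MulAction.stabilizer M s ⊓ MulAction.stabilizer M t : Subgroup M) ∧
        ∃ x y : V, X.Adj x y ∧
          ∃ f : (MulAction.stabilizer M s ⊓ MulAction.stabilizer M t : Subgroup M) →*
            (MulAction.stabilizer G x ⊓ MulAction.stabilizer G y : Subgroup G), Function.Injective f) → C M) : C G := by
  by_cases hne : ∃ v w : V, X.Adj v w
  · obtain ⟨v, w, hvw⟩ := hne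
    let _ := actS hX
    have hr : ∀ (g : G) (e : X.edgeSet), g • (ve e : SV X) = ve e → smulE hX g e = e :=
      fun g e h => Sum.inr.inj h
    refine mid hC (SX_onTree hX) (fun a => ∃ e : X.edgeSet, a = Sum.inr e) ?_ ?_ ?_
      (SX_adj (e := ⟨s(v, w), hvw⟩) (Sym2.mem_mk_left v w)) ?_
    · rintro g (x | e)
      · constructor
        · rintro ⟨e, he⟩
          exact (Sum.inl_ne_inr he).elim
        · rintro ⟨e, he⟩
          exact (Sum.inl_ne_inr he).elim
      · exact ⟨fun _ => ⟨e, rfl⟩, fun _ => ⟨smulE hX g e, rfl⟩⟩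
    · rintro a b (⟨x, e, rfl, rfl, -⟩ | ⟨x, e, rfl, rfl, -⟩)
      · constructor
        · rintro ⟨e', he'⟩
          exact (Sum.inl_ne_inr he').elim
        · intro h
          exact (h ⟨e, rfl⟩).elim
      · constructor
        · rintro - ⟨e', he'⟩
          exact Sum.inl_ne_inr he'
        · intro _
          exact ⟨e, rfl⟩
    · rintro a b (⟨x, e, rfl, rfl, -⟩ | ⟨x, e, rfl, rfl, he⟩) ⟨e', he'⟩ g hg
      · exact (Sum.inl_ne_inr he').elim
      · exact congrArg Sum.inl (fix_end hX hinv g x e he (hr g e hg))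
    · intro M T _ _ Y h1 h2 h3 h4
      refine hT M T Y h1 h2 ?_ ?_
      · intro t
        obtain ⟨a, f, hf⟩ := h3 t
        rcases a with x | ⟨⟨x, y⟩, he⟩
        · have hle : MulAction.stabilizer G (vi x : SV X) ≤ MulAction.stabilizer G x :=
            fun k hk => Sum.inl.inj hk
          exact ⟨x, (Subgroup.inclusion hle).comp f, (Subgroup.inclusion_injective hle).comp hf⟩
        · have hle : MulAction.stabilizer G (ve ⟨s(x, y), he⟩ : SV X) ≤ MulAction.stabilizer G x :=
            fun k hk => fix_end hX hinv k x _ (Sym2.mem_mk_left x y) (hr k _ hk)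
          exact ⟨x, (Subgroup.inclusion hle).comp f, (Subgroup.inclusion_injective hle).comp hf⟩
      · intro s t hst
        obtain ⟨h5, a, b, -, ⟨e, rfl⟩, f, hf⟩ := h4 s t hst
        obtain ⟨⟨x, y⟩, he⟩ := e
        have hle : MulAction.stabilizer G (ve ⟨s(x, y), he⟩ : SV X) ≤
            MulAction.stabilizer G x ⊓ MulAction.stabilizer G y := fun k hk =>
          ⟨fix_end hX hinv k x _ (Sym2.mem_mk_left x y) (hr k _ hk), fix_end hX hinv k y _ (Sym2.mem_mk_right x y) (hr k _ hk)⟩
        exact ⟨h5, x, y, he, (Subgroup.inclusion hle).comp f, (Subgroup.inclusion_injective hle).comp hf⟩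
  · refine hT G V X hX ?_ ?_ ?_
    · intro n _ v w h _ _
      exact hne ⟨v, w, h⟩
    · intro t
      exact ⟨t, MonoidHom.id _, fun _ _ h => h⟩
    · intro s t h
      exact (hne ⟨s, t, h⟩).elim

end Pool.Agent.H38.AP
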