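import Pool.Agent.H38.AP.App

/-!
# Approximation with one homomorphism

The approximating groups come with one homomorphism to the given group and an equivariant map of the trees
(`mid_map`), see `fg_edges_map`.
-/

set_option autoImplicit false

namespace Pool.Agent.H38.AP

open Pool.Agent.H93.TR Pool.Agent.H98.FJ

variable {C : (G : Type) → [Group G] → Prop}

section mid

variable {G W : Type} [Group G] [MulAction G W] {S : SimpleGraph W}

/-- the bipartite case, with the equivariant map `q` over the homomorphism `π` -/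
theorem mid_map (hC : Inherits C) (hS : OnTree G S) (Mid : W → Prop) (hm : ∀ (g : G) (a : W), Mid (g • a) ↔ Mid a)
    (hadj : ∀ a b, S.Adj a b → (Mid a ↔ ¬ Mid b)) (hst : ∀ a b, S.Adj a b → Mid a → ∀ g : G, g • a = a → g • b = b)
    {v w : W} (hvw : S.Adj v w)
    (hT : ∀ (M T : Type) [Group M] [MulAction M T] (Y : SimpleGraph T), OnTree M Y → NoInv Y (⊤ : Subgroup M) →
      ∀ (π : M →* G) (q : T → W), (∀ (m : M) (t : T), m • t = t → π m = 1 → m = 1) →
      (∀ (m : M) (t : T), q (m • t) = π m • q t) → (∀ s t : T, Y.Adj s t → S.Adj (q s) (q t)) →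
      (∀ s t : T, Y.Adj s t → Group.FG (MulAction.stabilizer M s ⊓ MulAction.stabilizer M t : Subgroup M)) → C M) : C G := by
  refine approx hC (Dm hS Mid w) hvw ?_
  let D := Dm hS Mid w
  change ∀ H : Ix D, C (Gp D H)
  intro H
  have hρ : ∀ r, D.ρ r = r.out := fun r => rfl
  -- the stabilisers of the midpoints of the coset graph
  have hmid : ∀ z : UU D H, Mid (pp D H z) → (MulAction.stabilizer G z).FG := by
    intro z hz
    obtain ⟨r, g, rfl⟩ := vx_surj D H z
    rw [pp_vx, hm, hρ] at hz
    rcases H.2 r with ⟨h1, -⟩ | ⟨-, h2, -⟩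
    · exact (h1 hz).elim
    · have e : MulAction.stabilizer G (vx D H r g) = (H.1 r).map (MulAut.conj g).toMonoidHom := by
        ext k
        rw [MulAction.mem_stabilizer_iff, stab_vx, Subgroup.mem_map]
        constructor
        · intro hk
          refine ⟨_, hk, ?_⟩
          show g * (g⁻¹ * k * g) * g⁻¹ = k
          group
        · rintro ⟨l, hl, rfl⟩
          show g⁻¹ * (g * l * g⁻¹) * g ∈ H.1 r
          have : g⁻¹ * (g * l * g⁻¹) * g = l := by group
          rw [this]
          exact hl
      rw [e]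
      obtain ⟨F, hF⟩ := h2
      classical
      refine ⟨F.image (MulAut.conj g).toMonoidHom, ?_⟩
      rw [Finset.coe_image, ← MonoidHom.map_closure, hF]
  have hnmid : ∀ z : UU D H, ¬ Mid (pp D H z) → ∀ k : G, k • pp D H z = pp D H z → k • z = z := by
    intro z hz k hk
    obtain ⟨r, g, rfl⟩ := vx_surj D H z
    rw [pp_vx] at hk
    rw [pp_vx, hm, hρ] at hz
    rcases H.2 r with ⟨-, h2⟩ | ⟨h1, -⟩
    · rw [stab_vx, h2, MulAction.mem_stabilizer_iff, mul_smul, mul_smul]
      rw [hρ] at hk
      rw [hk, inv_smul_smul]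
    · exact (hz h1).elim
  have hpi : ∀ (m : Gp D H) (t : TT D H), pr G (YY D H) (PP D H) m • QQ D H t = QQ D H (m • t) := by
    intro m t
    show _ • pp D H (PP D H t) = pp D H (PP D H (m • t))
    rw [smul_pi m, pp_smul]
  have hpair : ∀ s t : TT D H, (YY D H).Adj s t → Mid (QQ D H s) →
      (MulAction.stabilizer G (PP D H s) ⊓ MulAction.stabilizer G (PP D H t) : Subgroup G) =
        MulAction.stabilizer G (PP D H s) := by
    intro s t hst' hs
    have h1 : S.Adj (QQ D H s) (QQ D H t) := QQ_adj D H s t hst'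
    refine inf_eq_left.2 ?_
    intro k hk
    refine hnmid _ ((hadj _ _ h1).1 hs) k ?_
    exact hst _ _ h1 hs k (stab_le D H _ k hk)
  refine hT (Gp D H) (TT D H) (YY D H) (onTree (YY_tree D H)) ?_ (pr G (YY D H) (PP D H)) (QQ D H) ?_
    (fun m t => (hpi m t).symm) (QQ_adj D H) ?_
  · rintro m - s t hst' h1 h2
    have h3 : S.Adj (QQ D H s) (QQ D H t) := QQ_adj D H s t hst'
    have h4 := hpi m s
    rw [h1] at h4
    have h5 := hm (pr G (YY D H) (PP D H) m) (QQ D H s)
    rw [h4] at h5
    have h6 := hadj _ _ h3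
    tauto
  · intro m t h1 h2
    refine eq_of (YY_tree D H).connected (YY_cov D H) ?_ t ?_
    · rw [h2, map_one]
    · rw [h1, one_smul]
  · intro s t hst'
    obtain ⟨e⟩ := edge_equiv (YY_tree D H) (YY_cov D H) (ZZ_smul D H) s t hst'
    have h1 : S.Adj (QQ D H s) (QQ D H t) := QQ_adj D H s t hst'
    have key : ∀ a : TT D H, Mid (QQ D H a) →
        (MulAction.stabilizer G (PP D H s) ⊓ MulAction.stabilizer G (PP D H t) : Subgroup G) =
          MulAction.stabilizer G (PP D H a) →
        Group.FG (MulAction.stabilizer (Gp D H) s ⊓ MulAction.stabilizer (Gp D H) t : Subgroup (Gp D H)) := by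
      intro a ha hE
      have h2 : (MulAction.stabilizer G (PP D H s) ⊓ MulAction.stabilizer G (PP D H t) : Subgroup G).FG := by
        rw [hE]
        exact hmid _ ha
      have h3 : Group.FG (MulAction.stabilizer G (PP D H s) ⊓ MulAction.stabilizer G (PP D H t) : Subgroup G) :=
        (Group.fg_iff_subgroup_fg _).2 h2
      exact Group.fg_of_surjective (hG := h3) (f := e.toMonoidHom) e.surjective
    by_cases hs : Mid (QQ D H s)
    · exact key s hs (hpair s t hst' hs)
    · have ht : Mid (QQ D H t) := by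
        have := hadj _ _ h1
        tauto
      refine key t ht ?_
      rw [inf_comm]
      exact hpair t s hst'.symm ht

end mid

/-- **Approximation with one homomorphism.** -/
theorem fg_edges_map (hC : Inherits C) {G V : Type} [Group G] [MulAction G V] {X : SimpleGraph V} (hX : OnTree G X)
    (hinv : NoInv X (⊤ : Subgroup G))
    (hT : ∀ (M T : Type) [Group M] [MulAction M T] (Y : SimpleGraph T), OnTree M Y → NoInv Y (⊤ : Subgroup M) →
      (∃ π : M →* G, (∀ (m : M) (t : T), m • t = t → π m = 1 → m = 1) ∧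
        (∀ t : T, ∃ x : V, ∀ m : M, m • t = t → π m • x = x) ∧
        ∀ s t : T, Y.Adj s t → Group.FG (MulAction.stabilizer M s ⊓ MulAction.stabilizer M t : Subgroup M) ∧
          ∃ x y : V, X.Adj x y ∧ (∀ m : M, m • s = s → π m • x = x) ∧
            (∀ m : M, m • s = s → m • t = t → π m • y = y)) → C M) : C G := by
  by_cases hne : ∃ v w : V, X.Adj v w
  · obtain ⟨v, w, hvw⟩ := hne
    let _ := actS hX
    have hr : ∀ (g : G) (e : X.edgeSet), g • (ve e : SV X) = ve e → smulE hX g e = e :=
      fun g e h => Sum.inr.inj h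
    refine mid_map hC (SX_onTree hX) (fun a => ∃ e : X.edgeSet, a = Sum.inr e) ?_ ?_ ?_
      (SX_adj (e := ⟨s(v, w), hvw⟩) (Sym2.mem_mk_left v w)) ?_
    · rintro g (x | e)
      · constructor
        · rintro ⟨e, he⟩
          exact (Sum.inl_ne_inr he).elim
        · rintro ⟨e, he⟩
          exact (Sum.inl_ne_inr he).elim
      · exact ⟨fun _ => ⟨e, rfl⟩, fun _ => ⟨smulE hX g e, rfl⟩⟩
    · rintro a b (⟨x, e, rfl, rfl, -⟩ | ⟨x, e, rfl, rfl, -⟩)
      · constructor
        · rintro ⟨e', he'⟩
          exact (Sum.inl_ne_inr he').elim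
        · intro h
          exact (h ⟨e, rfl⟩).elim
      · constructor
        · rintro - ⟨e', he'⟩
          exact Sum.inl_ne_inr he'
        · intro _
          exact ⟨e, rfl⟩
    · rintro a b (⟨x, e, rfl, rfl, -⟩ | ⟨x, e, rfl, rfl, he⟩) ⟨e', he'⟩ g hg
      · exact (Sum.inl_ne_inr he').elim
      · exact congrArg Sum.inl (fix_end hX hinv g x e he (hr g e hg))
    · intro M T _ _ Y h1 h2 π q h3 h4 h5 h6
      have hfix : ∀ (m : M) (t : T), m • t = t → π m • q t = q t := fun m t h => by rw [← h4, h]
      refine hT M T Y h1 h2 ⟨π, h3, ?_, ?_⟩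
      · intro t
        have hf := fun (m : M) (h : m • t = t) => hfix m t h
        rcases hq : q t with x | ⟨⟨x, y⟩, he⟩
        · rw [hq] at hf
          exact ⟨x, fun m h => Sum.inl.inj (hf m h)⟩
        · rw [hq] at hf
          exact ⟨x, fun m h => fix_end hX hinv _ x _ (Sym2.mem_mk_left x y) (hr _ _ (hf m h))⟩
      · intro s t hst
        refine ⟨h6 s t hst, ?_⟩
        have hs := fun (m : M) (h : m • s = s) => hfix m s h
        have ht := fun (m : M) (h : m • t = t) => hfix m t h
        rcases h5 s t hst with ⟨x, e, h7, h8, he⟩ | ⟨x, e, h7, h8, he⟩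
        · rw [h7] at hs
          rw [h8] at ht
          obtain ⟨y, hy⟩ := Sym2.mem_iff_exists.1 he
          have hxy : X.Adj x y := by have := e.2; rwa [hy] at this
          have hye : y ∈ e.1 := by rw [hy]; exact Sym2.mem_mk_right x y
          exact ⟨x, y, hxy, fun m h => Sum.inl.inj (hs m h), fun m _ h => fix_end hX hinv _ y e hye (hr _ _ (ht m h))⟩
        · rw [h8] at hs
          obtain ⟨y, hy⟩ := Sym2.mem_iff_exists.1 he
          have hxy : X.Adj x y := by have := e.2; rwa [hy] at this
          have hye : y ∈ e.1 := by rw [hy]; exact Sym2.mem_mk_right x y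
          exact ⟨x, y, hxy, fun m h => fix_end hX hinv _ x e he (hr _ _ (hs m h)),
            fun m h _ => fix_end hX hinv _ y e hye (hr _ _ (hs m h))⟩
  · refine hT G V X hX ?_ ⟨MonoidHom.id G, fun m _ _ h => h, fun t => ⟨t, fun m h => h⟩, ?_⟩
    · intro n _ v w h _ _
      exact hne ⟨v, w, h⟩
    · intro s t h
      exact (hne ⟨s, t, h⟩).elim

end Pool.Agent.H38.AP
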