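import Pool.Agent.H38.AP.Sys
import Pool.Agent.H98.FJ.Closed

/-!
# The colimit of the covers of the coset graphs
-/

set_option autoImplicit false

namespace Pool.Agent.H38.AP

open Pool.Agent.H93.TR Pool.Agent.H98.FJ

/-- in a tree the neighbour closer to a given vertex is unique -/
theorem closer_uni {V : Type} {X : SimpleGraph V} (hX : X.IsTree) (r v w w' : V) (h : X.Adj v w) (h' : X.Adj v w')
    (hd : X.dist w r < X.dist v r) (hd' : X.dist w' r < X.dist v r) : w = w' := by
  classical
  obtain ⟨p, hp, hpl⟩ := (hX.connected r v).exists_path_of_dist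
  have key : ∀ x, X.Adj v x → X.dist x r < X.dist v r → x = p.penultimate := by
    intro x hx hxd
    obtain ⟨q, hq, hql⟩ := (hX.connected r x).exists_path_of_dist
    refine hX.isAcyclic.eq_penultimate_of_adj_end hp hx ?_
    refine hX.isAcyclic.mem_support_of_ne_mem_support_of_adj_of_isPath hp hq hx ?_
    intro hv
    have h1 : X.dist r v ≤ (q.takeUntil v hv).length := SimpleGraph.dist_le _
    have h2 := q.length_takeUntil_le_length hv
    rw [X.dist_comm (u := x), X.dist_comm (u := v)] at hxd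
    omega
  rw [key w h hd, key w' h' hd']

variable {G V R : Type} [Group G] [MulAction G V] (D : Dat G V R)

/-- the vertices of the covering tree -/
noncomputable abbrev TT (H : Ix D) : Type := UT (ZZ D H) (vx D H D.r0 1)

/-- the covering tree -/
noncomputable abbrev YY (H : Ix D) : SimpleGraph (TT D H) := UY (ZZ D H) (vx D H D.r0 1)

/-- the projection of the covering tree -/
noncomputable abbrev PP (H : Ix D) : TT D H → UU D H := Upi (ZZ D H) (vx D H D.r0 1)

/-- the base point -/
noncomputable abbrev rr (H : Ix D) : TT D H := Uroot (ZZ D H) (vx D H D.r0 1)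

theorem YY_tree (H : Ix D) : (YY D H).IsTree := tree_U _ _

theorem YY_cov (H : Ix D) : Cov (YY D H) (ZZ D H) (PP D H) := cov_U _ _

theorem PP_rr (H : Ix D) : PP D H (rr D H) = vx D H D.r0 1 := rfl

/-- the map to the tree -/
noncomputable abbrev QQ (H : Ix D) (a : TT D H) : V := pp D H (PP D H a)

theorem QQ_adj (H : Ix D) (a b : TT D H) (h : (YY D H).Adj a b) : D.X.Adj (QQ D H a) (QQ D H b) := (YY_cov D H).adj a b h

theorem lip (H : Ix D) (a b : TT D H) : D.X.dist (QQ D H a) (QQ D H b) ≤ (YY D H).dist a b := by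
  obtain ⟨w, hw⟩ := (YY_tree D H).connected.exists_walk_length_eq_dist a b
  let φ : YY D H →g D.X := ⟨QQ D H, fun {a b} h => QQ_adj D H a b h⟩
  rw [← hw, ← SimpleGraph.Walk.length_map φ w]
  exact SimpleGraph.dist_le _

variable {D}

theorem exists_ff {H H' : Ix D} (h : H ≤ H') : ∃ f : TT D H → TT D H', (∀ a b, (YY D H).Adj a b → (YY D H').Adj (f a) (f b)) ∧
    (∀ a, PP D H' (f a) = uu h (PP D H a)) ∧ f (rr D H) = rr D H' :=
  exists_lift (YY_tree D H) (YY_cov D H') (fun a => uu h (PP D H a)) (fun a b hab => uu_adj h _ _ ((YY_cov D H).adj a b hab))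
    (rr D H) (rr D H') (by rw [PP_rr, PP_rr, uu_vx])

/-- the maps of the covering trees -/
noncomputable def ff {H H' : Ix D} (h : H ≤ H') : TT D H → TT D H' := (exists_ff h).choose

theorem ff_adj {H H' : Ix D} (h : H ≤ H') (a b : TT D H) (hab : (YY D H).Adj a b) : (YY D H').Adj (ff h a) (ff h b) :=
  (exists_ff h).choose_spec.1 a b hab

theorem PP_ff {H H' : Ix D} (h : H ≤ H') (a : TT D H) : PP D H' (ff h a) = uu h (PP D H a) := (exists_ff h).choose_spec.2.1 a

theorem ff_rr {H H' : Ix D} (h : H ≤ H') : ff h (rr D H) = rr D H' := (exists_ff h).choose_spec.2.2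

theorem QQ_ff {H H' : Ix D} (h : H ≤ H') (a : TT D H) : QQ D H' (ff h a) = QQ D H a := by
  show pp D H' (PP D H' (ff h a)) = pp D H (PP D H a)
  rw [PP_ff, pp_uu]

theorem ff_id {H : Ix D} (h : H ≤ H) (a : TT D H) : ff h a = a :=
  lift_uni (YY_tree D H).connected (YY_cov D H) (ff h) id (ff_adj h) (fun _ _ hab => hab)
    (fun a => by rw [PP_ff, uu_id]; rfl) (rr D H) (ff_rr h) a

theorem ff_comp {H H' H'' : Ix D} (h : H ≤ H') (h' : H' ≤ H'') (h'' : H ≤ H'') (a : TT D H) : ff h' (ff h a) = ff h'' a :=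
  lift_uni (YY_tree D H).connected (YY_cov D H'') (fun a => ff h' (ff h a)) (ff h'')
    (fun a b hab => ff_adj h' _ _ (ff_adj h _ _ hab)) (ff_adj h'')
    (fun a => by rw [PP_ff, PP_ff, PP_ff, uu_comp h h' h'']) (rr D H) (by rw [ff_rr, ff_rr, ff_rr]) a

/-- the images of vertices over the same vertex are identified at a later stage -/
theorem claim {H : Ix D} {a b : TT D H} (w : (YY D H).Walk a b) :
    ∃ (H' : Ix D) (h : H ≤ H'), (YY D H').dist (ff h a) (ff h b) ≤ D.X.dist (QQ D H a) (QQ D H b) := by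
  induction w with
  | @nil a =>
    refine ⟨H, le_rfl, ?_⟩
    rw [SimpleGraph.dist_self]
    exact Nat.zero_le _
  | @cons a c b hac w ih =>
    obtain ⟨H1, h1, e1⟩ := ih
    have hadj : D.X.Adj (QQ D H a) (QQ D H c) := QQ_adj D H a c hac
    rcases D.hX.tree.dist_eq_dist_add_one_of_adj (QQ D H b) hadj with e2 | e2
    · refine ⟨H1, h1, ?_⟩
      have e3 : (YY D H1).dist (ff h1 a) (ff h1 c) = 1 := SimpleGraph.dist_eq_one_iff_adj.2 (ff_adj h1 a c hac)
      have e4 := (YY_tree D H1).connected.dist_triangle (u := ff h1 a) (v := ff h1 c) (w := ff h1 b)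
      rw [D.X.dist_comm (u := QQ D H a), e2, D.X.dist_comm (u := QQ D H b)]
      omega
    · obtain ⟨w', hw'⟩ := (YY_tree D H1).connected.exists_walk_length_eq_dist (ff h1 c) (ff h1 b)
      have e3 := lip D H1 (ff h1 c) (ff h1 b)
      rw [QQ_ff, QQ_ff] at e3
      rw [D.X.dist_comm (u := QQ D H b) (v := QQ D H c), D.X.dist_comm (u := QQ D H b) (v := QQ D H a)] at e2
      generalize hc' : ff h1 c = c' at w' hw' e3 e1
      cases w' with
      | nil =>
        rw [SimpleGraph.Walk.length_nil] at hw'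
        omega
      | @cons _ e _ hce w2 =>
        rw [SimpleGraph.Walk.length_cons] at hw'
        subst hc'
        have e4 : D.X.dist (QQ D H1 e) (QQ D H b) ≤ w2.length := by
          have e5 := lip D H1 e (ff h1 b)
          rw [QQ_ff] at e5
          exact e5.trans (SimpleGraph.dist_le w2)
        have hadj2 : D.X.Adj (QQ D H c) (QQ D H1 e) := by
          have := QQ_adj D H1 _ _ hce
          rwa [QQ_ff] at this
        have e6 : QQ D H a = QQ D H1 e :=
          closer_uni D.hX.tree (QQ D H b) (QQ D H c) _ _ hadj.symm hadj2 (by omega) (by omega)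
        obtain ⟨H2, h2, e7⟩ := merge (PP D H1 (ff h1 a)) (PP D H1 e) ((QQ_ff h1 a).trans e6)
        have e8 : ff h2 (ff h1 a) = ff h2 e := by
          refine (YY_cov D H2).uni (ff h2 (ff h1 c)) _ _ (ff_adj h2 _ _ (ff_adj h1 _ _ hac.symm)) (ff_adj h2 _ _ hce) ?_
          exact (PP_ff h2 _).trans (e7.trans (PP_ff h2 _).symm)
        refine ⟨H2, h1.trans h2, ?_⟩
        rw [← ff_comp h1 h2 (h1.trans h2) a, ← ff_comp h1 h2 (h1.trans h2) b, e8]
        let φ : YY D H1 →g YY D H2 := ⟨ff h2, fun {a b} h => ff_adj h2 a b h⟩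
        have e9 : (YY D H2).dist (ff h2 e) (ff h2 (ff h1 b)) ≤ w2.length := by
          rw [← SimpleGraph.Walk.length_map φ w2]
          exact SimpleGraph.dist_le _
        omega

theorem merge_TT {H : Ix D} (a b : TT D H) (hab : PP D H a = PP D H b) : ∃ (H' : Ix D) (h : H ≤ H'), ff h a = ff h b := by
  obtain ⟨w⟩ := (YY_tree D H).connected a b
  obtain ⟨H', h, e⟩ := claim w
  refine ⟨H', h, ?_⟩
  have e1 : QQ D H a = QQ D H b := congrArg (pp D H) hab
  rw [e1, SimpleGraph.dist_self] at e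
  exact ((YY_tree D H').connected.dist_eq_zero_iff).1 (Nat.le_zero.1 e)

variable (D)

/-- the approximating groups -/
noncomputable abbrev Gp (H : Ix D) : Type := MM G (YY D H) (PP D H)

variable {D}

theorem exists_FF {H H' : Ix D} (h : H ≤ H') : ∃ F : Gp D H →* Gp D H', (∀ m, pr G (YY D H') (PP D H') (F m) =
    pr G (YY D H) (PP D H) m) ∧ ∀ m t, F m • ff h t = ff h (m • t) :=
  exists_map (YY_tree D H) (YY_tree D H') (YY_cov D H') (ZZ_smul D H') (uu h) (uu_smul h) (ff h) (ff_adj h) (PP_ff h)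

/-- the maps of the approximating groups -/
noncomputable def FF {H H' : Ix D} (h : H ≤ H') : Gp D H →* Gp D H' := (exists_FF h).choose

theorem pr_FF {H H' : Ix D} (h : H ≤ H') (m : Gp D H) : pr G (YY D H') (PP D H') (FF h m) = pr G (YY D H) (PP D H) m :=
  (exists_FF h).choose_spec.1 m

theorem FF_smul {H H' : Ix D} (h : H ≤ H') (m : Gp D H) (t : TT D H) : FF h m • ff h t = ff h (m • t) :=
  (exists_FF h).choose_spec.2 m t

/-- `G` is the colimit of the approximating groups -/
theorem isColimit {v w : V} (hvw : D.X.Adj v w) :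
    IsColimit (ι := Ix D) (G := Gp D) (fun _ _ h => FF h) (fun H => pr G (YY D H) (PP D H)) where
  nonempty := Ix_ne D
  directed := Ix_dir
  map_id H h m := eq_of (YY_tree D H).connected (YY_cov D H) (pr_FF h m) (ff h (rr D H)) (by
    rw [FF_smul, ff_id, ff_id])
  map_comp H H' H'' h h' h'' m := eq_of (YY_tree D H'').connected (YY_cov D H'') (by rw [pr_FF, pr_FF, pr_FF])
    (ff h'' (rr D H)) (by
      rw [FF_smul h'' m, ← ff_comp h h' h'' (rr D H), FF_smul h', FF_smul h, ff_comp h h' h''])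
  compat H H' h m := pr_FF h m
  surj g := by
    obtain ⟨H⟩ := Ix_ne D
    have key : ∀ (u u' : UU D H), (ZZ D H).Reachable u u' → ∀ t : TT D H, PP D H t = u → ∃ t', PP D H t' = u' := by
      rintro u u' ⟨p⟩
      induction p with
      | nil => exact fun t ht => ⟨t, ht⟩
      | @cons a b c hab p ih =>
        intro t ht
        subst ht
        obtain ⟨t', -, ht'⟩ := (YY_cov D H).ex t b hab
        exact ih t' ht'
    obtain ⟨t', ht'⟩ := key _ _ (ZZ_conn H hvw (PP D H (rr D H)) (g • PP D H (rr D H))) (rr D H) rfl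
    obtain ⟨m, hm, -⟩ := exists_mem (YY_tree D H) (YY_cov D H) (ZZ_smul D H) g (rr D H) t' ht'
    exact ⟨H, m, hm⟩
  ker H m hm := by
    have e : PP D H (rr D H) = PP D H (m • rr D H) := by
      rw [smul_pi m, hm, one_smul]
    obtain ⟨H', h, e1⟩ := merge_TT _ _ e
    refine ⟨H', h, ?_⟩
    refine eq_of (YY_tree D H').connected (YY_cov D H') ?_ (ff h (rr D H)) ?_
    · rw [pr_FF, hm, map_one]
    · rw [FF_smul, ← e1, one_smul]

/-- the vertex stabilisers of the approximating groups -/
theorem exists_vertex (H : Ix D) (t : TT D H) : ∃ (r : R) (K : Subgroup G), D.J r K ∧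
    Nonempty (K ≃* MulAction.stabilizer (Gp D H) t) := by
  obtain ⟨r, g, hg⟩ := vx_surj D H (PP D H t)
  obtain ⟨e⟩ := stab_equiv (YY_tree D H) (YY_cov D H) (ZZ_smul D H) t
  have hmem : ∀ k : G, k • PP D H t = PP D H t ↔ g⁻¹ * k * g ∈ H.1 r := by
    intro k
    rw [← hg]
    exact stab_vx D H r g k
  refine ⟨r, H.1 r, H.2 r, ⟨MulEquiv.trans ?_ e⟩⟩
  refine
    { toFun := fun k => ⟨g * k * g⁻¹, ?_⟩
      invFun := fun k => ⟨g⁻¹ * k * g, ?_⟩
      left_inv := ?_
      right_inv := ?_
      map_mul' := ?_ }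
  · rw [MulAction.mem_stabilizer_iff, hmem]
    have : g⁻¹ * (g * (k : G) * g⁻¹) * g = k := by group
    rw [this]
    exact k.2
  · exact (hmem _).1 k.2
  · intro k
    refine Subtype.ext ?_
    show g⁻¹ * (g * (k : G) * g⁻¹) * g = k
    group
  · intro k
    refine Subtype.ext ?_
    show g * (g⁻¹ * (k : G) * g) * g⁻¹ = k
    group
  · intro k l
    refine Subtype.ext ?_
    show g * ((k : G) * l) * g⁻¹ = g * k * g⁻¹ * (g * l * g⁻¹)
    group

end Pool.Agent.H38.AP
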