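import Mathlib

/-!
# Universal covers of graphs

`exists_cov`: every graph with a base point has a covering by a tree.
-/

set_option autoImplicit false

namespace Pool.Agent.H38.AP

/-- coverings of graphs: adjacency is preserved and lifted uniquely -/
structure Cov {T U : Type} (Y : SimpleGraph T) (Z : SimpleGraph U) (π : T → U) : Prop where
  adj : ∀ s t, Y.Adj s t → Z.Adj (π s) (π t)
  ex : ∀ s u, Z.Adj (π s) u → ∃ t, Y.Adj s t ∧ π t = u
  uni : ∀ s t t', Y.Adj s t → Y.Adj s t' → π t = π t' → t = t'

/-- a graph with a rank function such that every vertex has at most one neighbour of lower or equal rank has no cycles -/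
theorem acyclic_of_rank {T : Type} {Y : SimpleGraph T} (ρ : T → ℕ)
    (h : ∀ s t t', Y.Adj s t → Y.Adj s t' → ρ t ≤ ρ s → ρ t' ≤ ρ s → t = t') : Y.IsAcyclic := by
  classical
  intro v c hc
  obtain ⟨s, hs, hmax⟩ := Finset.exists_max_image c.support.toFinset ρ ⟨v, by simp⟩
  rw [List.mem_toFinset] at hs
  have hc' := hc.rotate hs
  have hmem : ∀ x ∈ (c.rotate s hs).support, ρ x ≤ ρ s := by
    intro x hx
    refine hmax x ?_
    rw [List.mem_toFinset]
    exact (SimpleGraph.Walk.mem_support_rotate_iff c s hs).1 hx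
  refine hc'.snd_ne_penultimate ?_
  refine h s _ _ ((c.rotate s hs).adj_snd hc'.not_nil) ((c.rotate s hs).adj_penultimate hc'.not_nil).symm
    (hmem _ ?_) (hmem _ ?_)
  · exact SimpleGraph.Walk.getVert_mem_support _ _
  · exact SimpleGraph.Walk.getVert_mem_support _ _

variable {U : Type}

/-- walks without backtracking from `z0`, as lists, the last vertex first -/
def Red (Z : SimpleGraph U) (z0 : U) : List U → Prop
  | [] => False
  | [a] => a = z0
  | a :: b :: l => Z.Adj b a ∧ l.head? ≠ some a ∧ Red Z z0 (b :: l)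

/-- the vertices of the universal cover -/
def UT (Z : SimpleGraph U) (z0 : U) : Type := {l : List U // Red Z z0 l}

/-- the universal cover -/
def UY (Z : SimpleGraph U) (z0 : U) : SimpleGraph (UT Z z0) where
  Adj s t := (∃ a, t.1 = a :: s.1) ∨ (∃ a, s.1 = a :: t.1)
  symm := ⟨fun _ _ h => h.symm⟩
  loopless := ⟨by
    rintro s (⟨a, h⟩ | ⟨a, h⟩)
    · have := congrArg List.length h
      simp at this
    · have := congrArg List.length h
      simp at this⟩

/-- the projection -/
def Upi (Z : SimpleGraph U) (z0 : U) (s : UT Z z0) : U := s.1.headD z0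

/-- the base point -/
def Uroot (Z : SimpleGraph U) (z0 : U) : UT Z z0 := ⟨[z0], rfl⟩

theorem Upi_root (Z : SimpleGraph U) (z0 : U) : Upi Z z0 (Uroot Z z0) = z0 := rfl

theorem cov_U (Z : SimpleGraph U) (z0 : U) : Cov (UY Z z0) Z (Upi Z z0) := by
  have key : ∀ s t : UT Z z0, (∃ a, t.1 = a :: s.1) → Z.Adj (Upi Z z0 s) (Upi Z z0 t) := by
    rintro ⟨l, hl⟩ ⟨l', hl'⟩ ⟨a, h⟩
    change l' = a :: l at h
    subst h
    cases l with
    | nil => exact hl.elim
    | cons b l => exact hl'.1
  refine ⟨?_, ?_, ?_⟩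
  · rintro s t (h | h)
    · exact key s t h
    · exact (key t s h).symm
  · rintro ⟨l, hl⟩ u hu
    cases l with
    | nil => exact hl.elim
    | cons b l =>
      change Z.Adj b u at hu
      by_cases h : l.head? = some u
      · cases l with
        | nil => cases h
        | cons c l =>
          have hc : c = u := by simpa using h
          subst hc
          exact ⟨⟨c :: l, hl.2.2⟩, Or.inr ⟨b, rfl⟩, rfl⟩
      · exact ⟨⟨u :: b :: l, hu, h, hl⟩, Or.inl ⟨u, rfl⟩, rfl⟩
  · have main : ∀ s t t' : UT Z z0, (∃ a, t.1 = a :: s.1) → (∃ a, s.1 = a :: t'.1) → Upi Z z0 t = Upi Z z0 t' → False := by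
      rintro ⟨l, hl⟩ ⟨l1, hl1⟩ ⟨l2, hl2⟩ ⟨a, h1⟩ ⟨b, h2⟩ h
      change l1 = a :: l at h1
      change l = b :: l2 at h2
      subst h1
      subst h2
      cases l2 with
      | nil => exact hl2.elim
      | cons c l2 =>
        change a = c at h
        subst h
        exact hl1.2.1 rfl
    rintro s t t' (h1 | h1) (h2 | h2) h
    · obtain ⟨a, h1⟩ := h1
      obtain ⟨b, h2⟩ := h2
      refine Subtype.ext ?_
      have : a = b := by
        have e1 : Upi Z z0 t = a := by rw [Upi, h1]; rfl
        have e2 : Upi Z z0 t' = b := by rw [Upi, h2]; rfl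
        rw [← e1, ← e2, h]
      rw [h1, h2, this]
    · exact (main s t t' h1 h2 h).elim
    · exact (main s t' t h2 h1 h.symm).elim
    · obtain ⟨a, h1⟩ := h1
      obtain ⟨b, h2⟩ := h2
      refine Subtype.ext ?_
      rw [h1] at h2
      exact (List.cons.inj h2).2

theorem tree_U (Z : SimpleGraph U) (z0 : U) : (UY Z z0).IsTree := by
  have hconn : ∀ (l : List U) (hl : Red Z z0 l), (UY Z z0).Reachable ⟨l, hl⟩ (Uroot Z z0) := by
    intro l
    induction l with
    | nil => intro hl; exact hl.elim
    | cons a l ih =>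
      intro hl
      cases l with
      | nil =>
        have ha : a = z0 := hl
        subst ha
        exact SimpleGraph.Reachable.refl _
      | cons b l =>
        refine (SimpleGraph.Adj.reachable ?_).trans (ih hl.2.2)
        exact Or.inr ⟨a, rfl⟩
  refine ⟨?_, ?_⟩
  · have : Nonempty (UT Z z0) := ⟨Uroot Z z0⟩
    refine ⟨fun s t => ?_⟩
    exact (hconn s.1 s.2).trans (hconn t.1 t.2).symm
  · refine acyclic_of_rank (fun s => s.1.length) ?_
    intro s t t' h1 h2 h3 h4
    have key : ∀ x : UT Z z0, (UY Z z0).Adj s x → x.1.length ≤ s.1.length → ∃ a, s.1 = a :: x.1 := by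
      rintro x (⟨a, h⟩ | h) h5
      · have := congrArg List.length h
        rw [List.length_cons] at this
        omega
      · exact h
    obtain ⟨a, ha⟩ := key t h1 h3
    obtain ⟨b, hb⟩ := key t' h2 h4
    refine Subtype.ext ?_
    rw [ha] at hb
    exact (List.cons.inj hb).2

section lift

variable {T T' : Type} {Y : SimpleGraph T} {Z : SimpleGraph U} {Y' : SimpleGraph T'} {π' : T' → U}

/-- uniqueness of lifts -/
theorem lift_uni (hY : Y.Connected) (h : Cov Y' Z π') (f f' : T → T') (hf : ∀ a b, Y.Adj a b → Y'.Adj (f a) (f b))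
    (hf' : ∀ a b, Y.Adj a b → Y'.Adj (f' a) (f' b)) (he : ∀ a, π' (f a) = π' (f' a)) (s : T) (hs : f s = f' s) (t : T) :
    f t = f' t := by
  obtain ⟨w⟩ := hY t s
  induction w with
  | nil => exact hs
  | @cons a b _ hab w ih =>
    have e := ih hs
    refine h.uni (f b) _ _ (hf _ _ hab.symm) ?_ (he _)
    rw [e]
    exact hf' _ _ hab.symm

/-- transport along a walk -/
def tr (st : T' → U → T') (F : T → U) (s' : T') : ∀ {a s : T}, Y.Walk a s → T'
  | _, _, .nil => s'
  | a, _, .cons _ w => st (tr st F s' w) (F a)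

/-- existence of lifts -/
theorem exists_lift (hY : Y.IsTree) (h : Cov Y' Z π') (F : T → U) (hF : ∀ a b, Y.Adj a b → Z.Adj (F a) (F b))
    (s : T) (s' : T') (hs : π' s' = F s) :
    ∃ f : T → T', (∀ a b, Y.Adj a b → Y'.Adj (f a) (f b)) ∧ (∀ a, π' (f a) = F a) ∧ f s = s' := by
  classical
  have hst : ∀ (t : T') (u : U), ∃ t' : T', Z.Adj (π' t) u → Y'.Adj t t' ∧ π' t' = u := by
    intro t u
    by_cases hu : Z.Adj (π' t) u
    · obtain ⟨t', h1⟩ := h.ex t u hu
      exact ⟨t', fun _ => h1⟩
    · exact ⟨t, fun h1 => (hu h1).elim⟩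
  choose st hst using hst
  have hpi : ∀ (a b : T) (w : Y.Walk a b), b = s → π' (tr st F s' w) = F a := by
    intro a b w
    induction w with
    | nil =>
      rintro rfl
      exact hs
    | @cons a b _ hab w ih =>
      intro hb
      have e := ih hb
      refine (hst _ _ ?_).2
      rw [e]
      exact (hF _ _ hab).symm
  choose p hp hp' using fun a : T => hY.existsUnique_path a s
  have hcase : ∀ a b, (hab : Y.Adj a b) → p a = .cons hab (p b) ∨ p b = .cons hab.symm (p a) := by
    intro a b hab
    by_cases ha : a ∈ (p b).support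
    · right
      have h1 : (p b).takeUntil a ha = .cons hab.symm .nil := by
        have := (hY.isAcyclic.subsingleton_path b a).elim (⟨(p b).takeUntil a ha, (hp b).takeUntil ha⟩ : Y.Path b a)
          (SimpleGraph.Path.singleton hab.symm)
        exact congrArg Subtype.val this
      have h2 : (p b).dropUntil a ha = p a := hp' a _ ((hp b).dropUntil ha)
      have h3 := (p b).take_spec ha
      rw [h1, h2] at h3
      exact h3.symm
    · left
      exact (hp' a _ ((SimpleGraph.Walk.cons_isPath_iff _ _).2 ⟨hp b, ha⟩)).symm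
  refine ⟨fun a => tr st F s' (p a), ?_, fun a => hpi a s (p a) rfl, ?_⟩
  · intro a b hab
    show Y'.Adj (tr st F s' (p a)) (tr st F s' (p b))
    rcases hcase a b hab with h1 | h1
    · rw [h1]
      refine ((hst _ _ ?_).1).symm
      rw [hpi b s (p b) rfl]
      exact (hF _ _ hab).symm
    · rw [h1]
      refine (hst _ _ ?_).1
      rw [hpi a s (p a) rfl]
      exact hF _ _ hab
  · show tr st F s' (p s) = s'
    rw [← hp' s .nil SimpleGraph.Walk.IsPath.nil]
    rfl

end lift

end Pool.Agent.H38.AP
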