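import Pool.Agent.H38.AP.Cov
import Pool.Agent.H93.TR.Defs

/-!
# The group of the lifts

`MM G Y π`: the automorphisms of the covering graph `Y` over the elements of `G`.
-/

set_option autoImplicit false

namespace Pool.Agent.H38.AP

open Pool.Agent.H93.TR

/-- the automorphisms of `Y` over the elements of `G` -/
def MM (G : Type) [Group G] {T U : Type} [MulAction G U] (Y : SimpleGraph T) (π : T → U) : Subgroup (G × Equiv.Perm T) where
  carrier := {m | (∀ s t, Y.Adj (m.2 s) (m.2 t) ↔ Y.Adj s t) ∧ ∀ s, π (m.2 s) = m.1 • π s}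
  one_mem' := ⟨fun _ _ => Iff.rfl, fun _ => (one_smul G _).symm⟩
  mul_mem' := by
    rintro m n ⟨h1, h2⟩ ⟨h3, h4⟩
    refine ⟨fun s t => ?_, fun s => ?_⟩
    · exact (h1 _ _).trans (h3 _ _)
    · show π (m.2 (n.2 s)) = (m.1 * n.1) • π s
      rw [h2, h4, mul_smul]
  inv_mem' := by
    rintro m ⟨h1, h2⟩
    refine ⟨fun s t => ?_, fun s => ?_⟩
    · have := h1 (m.2.symm s) (m.2.symm t)
      rw [Equiv.apply_symm_apply, Equiv.apply_symm_apply] at this
      exact this.symm
    · show π (m.2.symm s) = m.1⁻¹ • π s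
      have := h2 (m.2.symm s)
      rw [Equiv.apply_symm_apply] at this
      rw [this, inv_smul_smul]

section

variable {G : Type} [Group G] {T U : Type} [MulAction G U] {Y : SimpleGraph T} {Z : SimpleGraph U} {π : T → U}

/-- the action on the covering graph -/
instance instMM : MulAction (MM G Y π) T where
  smul m t := m.1.2 t
  one_smul _ := rfl
  mul_smul _ _ _ := rfl

/-- the projection to `G` -/
def pr (G : Type) [Group G] {T U : Type} [MulAction G U] (Y : SimpleGraph T) (π : T → U) : MM G Y π →* G where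
  toFun m := m.1.1
  map_one' := rfl
  map_mul' _ _ := rfl

theorem smul_adj (m : MM G Y π) (s t : T) (h : Y.Adj s t) : Y.Adj (m • s) (m • t) := (m.2.1 s t).2 h

theorem smul_pi (m : MM G Y π) (s : T) : π (m • s) = pr G Y π m • π s := m.2.2 s

theorem onTree (hY : Y.IsTree) : OnTree (MM G Y π) Y := ⟨hY, fun m s t h => smul_adj m s t h⟩

theorem eq_of (hY : Y.Connected) (hc : Cov Y Z π) {m n : MM G Y π} (h : pr G Y π m = pr G Y π n) (s : T)
    (hs : m • s = n • s) : m = n := by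
  have key : ∀ t, m • t = n • t := fun t =>
    lift_uni hY hc (fun t => m • t) (fun t => n • t) (fun a b hab => smul_adj m a b hab)
      (fun a b hab => smul_adj n a b hab) (fun a => by rw [smul_pi m, smul_pi n, h]) s hs t
  exact Subtype.ext (Prod.ext h (Equiv.ext key))

theorem exists_mem (hY : Y.IsTree) (hc : Cov Y Z π) (hG : ∀ (g : G) (a b : U), Z.Adj a b → Z.Adj (g • a) (g • b)) (g : G)
    (s s' : T) (hs : π s' = g • π s) : ∃ m : MM G Y π, pr G Y π m = g ∧ m • s = s' := by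
  have lf : ∀ (g : G) (s s' : T), π s' = g • π s → ∃ f : T → T, (∀ a b, Y.Adj a b → Y.Adj (f a) (f b)) ∧
      (∀ a, π (f a) = g • π a) ∧ f s = s' := fun g s s' h =>
    exists_lift hY hc (fun a => g • π a) (fun a b hab => hG g _ _ (hc.adj a b hab)) s s' h
  obtain ⟨f, h1, h2, h3⟩ := lf g s s' hs
  obtain ⟨f', h4, h5, h6⟩ := lf g⁻¹ s' s (by rw [hs, inv_smul_smul])
  have e1 : ∀ t, f' (f t) = t := fun t =>
    lift_uni hY.connected hc (fun t => f' (f t)) id (fun a b hab => h4 _ _ (h1 _ _ hab)) (fun a b hab => hab)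
      (fun a => by rw [h5, h2, inv_smul_smul]; rfl) s (by show f' (f s) = s; rw [h3, h6]) t
  have e2 : ∀ t, f (f' t) = t := fun t =>
    lift_uni hY.connected hc (fun t => f (f' t)) id (fun a b hab => h1 _ _ (h4 _ _ hab)) (fun a b hab => hab)
      (fun a => by rw [h2, h5, smul_inv_smul]; rfl) s' (by show f (f' s') = s'; rw [h6, h3]) t
  refine ⟨⟨(g, ⟨f, f', e1, e2⟩), fun a b => ⟨fun h => ?_, fun h => h1 a b h⟩, h2⟩, rfl, h3⟩
  have := h4 _ _ h
  change Y.Adj (f' (f a)) (f' (f b)) at this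
  rwa [e1, e1] at this

/-- the stabilisers of the vertices -/
theorem stab_equiv (hY : Y.IsTree) (hc : Cov Y Z π) (hG : ∀ (g : G) (a b : U), Z.Adj a b → Z.Adj (g • a) (g • b)) (t : T) :
    Nonempty (MulAction.stabilizer G (π t) ≃* MulAction.stabilizer (MM G Y π) t) := by
  let φ : MulAction.stabilizer (MM G Y π) t →* MulAction.stabilizer G (π t) :=
    { toFun := fun m => ⟨pr G Y π m.1, by
        rw [MulAction.mem_stabilizer_iff, ← smul_pi m.1, m.2]⟩
      map_one' := rfl
      map_mul' := fun _ _ => rfl }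
  refine ⟨(MulEquiv.ofBijective φ ⟨?_, ?_⟩).symm⟩
  · intro m n h
    refine Subtype.ext (eq_of hY.connected hc (congrArg Subtype.val h) t ?_)
    rw [m.2, n.2]
  · rintro ⟨g, hg⟩
    obtain ⟨m, h1, h2⟩ := exists_mem hY hc hG g t t hg.symm
    exact ⟨⟨m, h2⟩, Subtype.ext h1⟩

/-- the stabilisers of the edges -/
theorem edge_equiv (hY : Y.IsTree) (hc : Cov Y Z π) (hG : ∀ (g : G) (a b : U), Z.Adj a b → Z.Adj (g • a) (g • b)) (s t : T)
    (hst : Y.Adj s t) :
    Nonempty ((MulAction.stabilizer G (π s) ⊓ MulAction.stabilizer G (π t) : Subgroup G) ≃*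
      (MulAction.stabilizer (MM G Y π) s ⊓ MulAction.stabilizer (MM G Y π) t : Subgroup (MM G Y π))) := by
  let φ : (MulAction.stabilizer (MM G Y π) s ⊓ MulAction.stabilizer (MM G Y π) t : Subgroup (MM G Y π)) →*
      (MulAction.stabilizer G (π s) ⊓ MulAction.stabilizer G (π t) : Subgroup G) :=
    { toFun := fun m => ⟨pr G Y π m.1, by
        refine ⟨?_, ?_⟩
        · show pr G Y π m.1 • π s = π s
          rw [← smul_pi m.1, m.2.1]
        · show pr G Y π m.1 • π t = π t
          rw [← smul_pi m.1, m.2.2]⟩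
      map_one' := rfl
      map_mul' := fun _ _ => rfl }
  refine ⟨(MulEquiv.ofBijective φ ⟨?_, ?_⟩).symm⟩
  · intro m n h
    refine Subtype.ext (eq_of hY.connected hc (congrArg Subtype.val h) t ?_)
    rw [m.2.2, n.2.2]
  · rintro ⟨g, hg, hg'⟩
    obtain ⟨m, h1, h2⟩ := exists_mem hY hc hG g s s hg.symm
    refine ⟨⟨m, h2, ?_⟩, Subtype.ext h1⟩
    refine hc.uni s _ _ ?_ hst ?_
    · have := smul_adj m s t hst
      rwa [h2] at this
    · rw [smul_pi m, h1]
      exact hg'

/-- functoriality -/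
theorem exists_map {T' U' : Type} [MulAction G U'] {Y' : SimpleGraph T'} {Z' : SimpleGraph U'} {π' : T' → U'}
    (hY : Y.IsTree) (hY' : Y'.IsTree) (hc' : Cov Y' Z' π')
    (hG' : ∀ (g : G) (a b : U'), Z'.Adj a b → Z'.Adj (g • a) (g • b)) (u : U → U') (hu : ∀ (g : G) (a : U), u (g • a) = g • u a)
    (f : T → T') (hf : ∀ a b, Y.Adj a b → Y'.Adj (f a) (f b)) (hfu : ∀ a, π' (f a) = u (π a)) :
    ∃ F : MM G Y π →* MM G Y' π', (∀ m, pr G Y' π' (F m) = pr G Y π m) ∧ ∀ m t, F m • f t = f (m • t) := by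
  obtain ⟨r⟩ := hY.connected.nonempty
  have ex : ∀ m : MM G Y π, ∃ m' : MM G Y' π', pr G Y' π' m' = pr G Y π m ∧ m' • f r = f (m • r) := fun m =>
    exists_mem hY' hc' hG' (pr G Y π m) (f r) (f (m • r)) (by rw [hfu, smul_pi m, hu, hfu])
  choose F hF1 hF2 using ex
  have hF3 : ∀ m t, F m • f t = f (m • t) := fun m t =>
    lift_uni hY.connected hc' (fun t => F m • f t) (fun t => f (m • t)) (fun a b hab => smul_adj _ _ _ (hf a b hab))
      (fun a b hab => hf _ _ (smul_adj m a b hab)) (fun a => by rw [smul_pi (F m), hfu, hfu, smul_pi m, hu, hF1]) r (hF2 m) t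
  refine ⟨MonoidHom.mk' F ?_, hF1, hF3⟩
  intro m n
  refine eq_of hY'.connected hc' ?_ (f r) ?_
  · rw [map_mul, hF1, hF1, hF1, map_mul]
  · rw [mul_smul, hF3, hF3, hF3, mul_smul]

end

end Pool.Agent.H38.AP
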