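import Pool.Agent.H38.AP.Col

/-!
# The barycentric subdivision of a tree
-/

set_option autoImplicit false

namespace Pool.Agent.H38.AP

open Pool.Agent.H93.TR Pool.Agent.H98.FJ

/-- the vertices of the subdivision -/
def SV {V : Type} (X : SimpleGraph V) : Type := V ⊕ X.edgeSet

/-- the old vertices -/
def vi {V : Type} {X : SimpleGraph V} (v : V) : SV X := Sum.inl v

/-- the midpoints -/
def ve {V : Type} {X : SimpleGraph V} (e : X.edgeSet) : SV X := Sum.inr e

/-- the subdivision -/
def SX {V : Type} (X : SimpleGraph V) : SimpleGraph (SV X) where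
  Adj a b := (∃ (v : V) (e : X.edgeSet), a = Sum.inl v ∧ b = Sum.inr e ∧ v ∈ e.1) ∨
    (∃ (v : V) (e : X.edgeSet), b = Sum.inl v ∧ a = Sum.inr e ∧ v ∈ e.1)
  symm := ⟨fun _ _ h => h.symm⟩
  loopless := ⟨by
    rintro a (⟨v, e, h1, h2, -⟩ | ⟨v, e, h1, h2, -⟩)
    · exact Sum.inl_ne_inr (h1.symm.trans h2)
    · exact Sum.inl_ne_inr (h1.symm.trans h2)⟩

variable {G V : Type} [Group G] [MulAction G V] {X : SimpleGraph V}

theorem SX_adj {v : V} {e : X.edgeSet} (h : v ∈ e.1) : (SX X).Adj (Sum.inl v : SV X) (Sum.inr e : SV X) :=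
  Or.inl ⟨v, e, rfl, rfl, h⟩

/-- the subdivision of a tree is a tree -/
theorem SX_tree {V : Type} {X : SimpleGraph V} (hX : X.IsTree) : (SX X).IsTree := by
  classical
  obtain ⟨r⟩ := hX.connected.nonempty
  have hstep : ∀ (v w : V), X.Adj v w → (SX X).Reachable (Sum.inl v : SV X) (Sum.inl w : SV X) := by
    intro v w hvw
    let e : X.edgeSet := ⟨s(v, w), hvw⟩
    exact (SX_adj (e := e) (Sym2.mem_mk_left v w)).reachable.trans (SX_adj (e := e) (Sym2.mem_mk_right v w)).symm.reachable
  have hv : ∀ v w : V, (SX X).Reachable (Sum.inl v : SV X) (Sum.inl w : SV X) := by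
    intro v w
    obtain ⟨p⟩ := hX.connected v w
    induction p with
    | nil => exact SimpleGraph.Reachable.refl _
    | cons h p ih => exact (hstep _ _ h).trans ih
  have hall : ∀ a : SV X, (SX X).Reachable a (Sum.inl r : SV X) := by
    rintro (v | e)
    · exact hv v r
    · obtain ⟨⟨x, y⟩, he⟩ := e
      exact (SX_adj (e := ⟨s(x, y), he⟩) (Sym2.mem_mk_left x y)).symm.reachable.trans (hv x r)
  refine ⟨?_, ?_⟩
  · have : Nonempty (SV X) := ⟨Sum.inl r⟩
    exact ⟨fun a b => (hall a).trans (hall b).symm⟩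
  · -- ranks
    let δ : Sym2 V → ℕ := Sym2.lift ⟨fun x y => X.dist x r + X.dist y r, fun x y => Nat.add_comm _ _⟩
    let ρ : SV X → ℕ := fun a => match a with
      | Sum.inl v => 2 * X.dist v r
      | Sum.inr e => δ e.1
    have hρ1 : ∀ v : V, ρ (Sum.inl v) = 2 * X.dist v r := fun v => rfl
    have hρ2 : ∀ (v w : V) (h : X.Adj v w), ρ (Sum.inr ⟨s(v, w), h⟩) = X.dist v r + X.dist w r := fun v w h => rfl
    have hne : ∀ (v w : V), X.Adj v w → X.dist v r = X.dist w r + 1 ∨ X.dist w r = X.dist v r + 1 := by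
      intro v w h
      have := hX.dist_eq_dist_add_one_of_adj r h
      rw [X.dist_comm (u := r), X.dist_comm (u := r)] at this
      exact this
    refine acyclic_of_rank ρ ?_
    rintro a b c hab hac hb hc
    rcases hab with ⟨v, e, rfl, rfl, he⟩ | ⟨v, e, rfl, rfl, he⟩
    · rcases hac with ⟨v', e', h1, rfl, he'⟩ | ⟨v', e', -, h1, -⟩
      · have hv : v = v' := Sum.inl.inj h1
        subst hv
        obtain ⟨w, hw⟩ := Sym2.mem_iff_exists.1 he
        obtain ⟨w', hw'⟩ := Sym2.mem_iff_exists.1 he'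
        have hadj : X.Adj v w := by have := e.2; rwa [hw] at this
        have hadj' : X.Adj v w' := by have := e'.2; rwa [hw'] at this
        have e1 : e = ⟨s(v, w), hadj⟩ := Subtype.ext hw
        have e2 : e' = ⟨s(v, w'), hadj'⟩ := Subtype.ext hw'
        rw [e1, hρ1, hρ2] at hb
        rw [e2, hρ1, hρ2] at hc
        have f1 := hne v w hadj
        have f2 := hne v w' hadj'
        have : w = w' := closer_uni hX r v w w' hadj hadj' (by omega) (by omega)
        subst this
        rw [e1, e2]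
      · exact (Sum.inl_ne_inr h1).elim
    · rcases hac with ⟨v', e', h1, -, -⟩ | ⟨v', e', rfl, h1, he'⟩
      · exact (Sum.inl_ne_inr h1.symm).elim
      · have hee : e = e' := Sum.inr.inj h1
        subst hee
        by_contra hvv
        have hvv' : v ≠ v' := fun h => hvv (by rw [h])
        have h2 : e.1 = s(v, v') := (Sym2.mem_and_mem_iff hvv').1 ⟨he, he'⟩
        have hadj : X.Adj v v' := by have := e.2; rwa [h2] at this
        have e1 : e = ⟨s(v, v'), hadj⟩ := Subtype.ext h2
        rw [e1, hρ1, hρ2] at hb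
        rw [e1, hρ1, hρ2] at hc
        have := hne v v' hadj
        omega

/-- the action on the edges -/
def smulE (hX : OnTree G X) (g : G) (e : X.edgeSet) : X.edgeSet :=
  ⟨Sym2.map (g • ·) e.1, by
    obtain ⟨⟨x, y⟩, he⟩ := e
    exact hX.adj g x y he⟩

/-- the action on the vertices of the subdivision -/
@[implicit_reducible]
def actS (hX : OnTree G X) : MulAction G (SV X) where
  smul g a := match a with
    | Sum.inl v => Sum.inl (g • v)
    | Sum.inr e => Sum.inr (smulE hX g e)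
  one_smul := by
    rintro (v | ⟨⟨x, y⟩, he⟩)
    · show (Sum.inl ((1 : G) • v) : SV X) = Sum.inl v
      rw [one_smul]
    · show (Sum.inr (smulE hX 1 ⟨s(x, y), he⟩) : SV X) = Sum.inr ⟨s(x, y), he⟩
      refine congrArg Sum.inr (Subtype.ext ?_)
      show s((1 : G) • x, (1 : G) • y) = s(x, y)
      rw [one_smul, one_smul]
  mul_smul g h := by
    rintro (v | ⟨⟨x, y⟩, he⟩)
    · show (Sum.inl ((g * h) • v) : SV X) = Sum.inl (g • h • v)
      rw [mul_smul]
    · show (Sum.inr (smulE hX (g * h) ⟨s(x, y), he⟩) : SV X) = Sum.inr (smulE hX g (smulE hX h ⟨s(x, y), he⟩))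
      refine congrArg Sum.inr (Subtype.ext ?_)
      show s((g * h) • x, (g * h) • y) = s(g • h • x, g • h • y)
      rw [mul_smul, mul_smul]

theorem mem_smulE (hX : OnTree G X) (g : G) (v : V) (e : X.edgeSet) (h : v ∈ e.1) : g • v ∈ (smulE hX g e).1 := by
  show g • v ∈ Sym2.map (g • ·) e.1
  exact Sym2.mem_map.2 ⟨v, h, rfl⟩

theorem SX_onTree (hX : OnTree G X) : letI := actS hX; OnTree G (SX X) := by
  let _ := actS hX
  refine ⟨SX_tree hX.tree, ?_⟩
  rintro g a b (⟨v, e, rfl, rfl, he⟩ | ⟨v, e, rfl, rfl, he⟩)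
  · exact Or.inl ⟨g • v, smulE hX g e, rfl, rfl, mem_smulE hX g v e he⟩
  · exact Or.inr ⟨g • v, smulE hX g e, rfl, rfl, mem_smulE hX g v e he⟩

/-- without inversions the stabiliser of an edge fixes its end points -/
theorem fix_end (hX : OnTree G X) (hinv : NoInv X (⊤ : Subgroup G)) (g : G) (v : V) (e : X.edgeSet) (he : v ∈ e.1)
    (h : smulE hX g e = e) : g • v = v := by
  obtain ⟨w, hw⟩ := Sym2.mem_iff_exists.1 he
  have hadj : X.Adj v w := by have := e.2; rwa [hw] at this
  have h1 : Sym2.map (g • ·) e.1 = e.1 := congrArg Subtype.val h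
  rw [hw] at h1
  have h2 : s(g • v, g • w) = s(v, w) := h1
  rcases Sym2.eq_iff.1 h2 with ⟨h3, -⟩ | ⟨h3, h4⟩
  · exact h3
  · exact (hinv g (Subgroup.mem_top g) v w hadj h3 h4).elim

end Pool.Agent.H38.AP
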