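import Pool.Agent.H38.AP.Grp

/-!
# The directed system of the covers of the coset graphs
-/

set_option autoImplicit false

namespace Pool.Agent.H38.AP

open Pool.Agent.H93.TR

/-- a group acting on a tree, representatives of the orbits, and admissible subgroups of their stabilisers -/
structure Dat (G V R : Type) [Group G] [MulAction G V] where
  X : SimpleGraph V
  ρ : R → V
  J : R → Subgroup G → Prop
  hX : OnTree G X
  hs : ∀ v : V, ∃ (r : R) (g : G), g • ρ r = v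
  hi : ∀ (r r' : R) (g : G), g • ρ r = ρ r' → r = r'
  fx : ∀ r K, J r K → ∀ k ∈ K, k • ρ r = ρ r
  ne : ∀ r, ∃ K, J r K
  dir : ∀ r K K', J r K → J r K' → ∃ K'', J r K'' ∧ K ≤ K'' ∧ K' ≤ K''
  big : ∀ (r : R) (K : Subgroup G) (c : G), J r K → c • ρ r = ρ r → ∃ K', J r K' ∧ K ≤ K' ∧ c ∈ K'
  r0 : R

variable {G V R : Type} [Group G] [MulAction G V] (D : Dat G V R)

/-- the families of admissible subgroups -/
def Ix : Type := {H : R → Subgroup G // ∀ r, D.J r (H r)}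

instance : PartialOrder (Ix D) := inferInstanceAs (PartialOrder {H : R → Subgroup G // ∀ r, D.J r (H r)})

/-- the vertices of the coset graph -/
def UU (H : Ix D) : Type := Σ r : R, G ⧸ H.1 r

instance instUU (H : Ix D) : MulAction G (UU D H) where
  smul g z := ⟨z.1, g • z.2⟩
  one_smul z := by
    show (⟨z.1, (1 : G) • z.2⟩ : Σ r : R, G ⧸ H.1 r) = z
    rw [one_smul]
    rfl
  mul_smul g h z := by
    show (⟨z.1, (g * h) • z.2⟩ : Σ r : R, G ⧸ H.1 r) = ⟨z.1, g • h • z.2⟩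
    rw [mul_smul]

/-- the vertex `g H r` -/
def vx (H : Ix D) (r : R) (g : G) : UU D H := ⟨r, (g : G ⧸ H.1 r)⟩

theorem vx_surj (H : Ix D) (z : UU D H) : ∃ (r : R) (g : G), vx D H r g = z := by
  obtain ⟨r, q⟩ := z
  obtain ⟨g, rfl⟩ := QuotientGroup.mk_surjective q
  exact ⟨r, g, rfl⟩

theorem smul_vx (H : Ix D) (r : R) (g h : G) : g • vx D H r h = vx D H r (g * h) := rfl

theorem vx_eq (H : Ix D) (r : R) (g h : G) : vx D H r g = vx D H r h ↔ g⁻¹ * h ∈ H.1 r := by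
  rw [← QuotientGroup.eq]
  constructor
  · intro e
    exact eq_of_heq (Sigma.mk.inj e).2
  · intro e
    show (⟨r, (g : G ⧸ H.1 r)⟩ : Σ r : R, G ⧸ H.1 r) = ⟨r, (h : G ⧸ H.1 r)⟩
    rw [e]

/-- the projection to the tree -/
noncomputable def pp (H : Ix D) (z : UU D H) : V := z.2.out • D.ρ z.1

theorem pp_vx (H : Ix D) (r : R) (g : G) : pp D H (vx D H r g) = g • D.ρ r := by
  obtain ⟨h, hh⟩ := QuotientGroup.mk_out_eq_mul (H.1 r) g
  show ((g : G ⧸ H.1 r)).out • D.ρ r = g • D.ρ r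
  rw [hh, mul_smul, D.fx r _ (H.2 r) _ h.2]

theorem pp_smul (H : Ix D) (g : G) (z : UU D H) : pp D H (g • z) = g • pp D H z := by
  obtain ⟨r, h, rfl⟩ := vx_surj D H z
  rw [smul_vx, pp_vx, pp_vx, mul_smul]

theorem pp_surj (H : Ix D) (v : V) : ∃ z, pp D H z = v := by
  obtain ⟨r, g, rfl⟩ := D.hs v
  exact ⟨vx D H r g, pp_vx D H r g⟩

/-- the stabiliser of a vertex of the coset graph -/
theorem stab_vx (H : Ix D) (r : R) (g h : G) : h • vx D H r g = vx D H r g ↔ g⁻¹ * h * g ∈ H.1 r := by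
  rw [smul_vx, eq_comm, vx_eq, mul_assoc]

/-- the coset graph -/
noncomputable def ZZ (H : Ix D) : SimpleGraph (UU D H) := D.X.comap (pp D H)

theorem ZZ_adj (H : Ix D) (a b : UU D H) : (ZZ D H).Adj a b ↔ D.X.Adj (pp D H a) (pp D H b) := Iff.rfl

theorem ZZ_smul (H : Ix D) (g : G) (a b : UU D H) (h : (ZZ D H).Adj a b) : (ZZ D H).Adj (g • a) (g • b) := by
  rw [ZZ_adj, pp_smul, pp_smul]
  exact D.hX.adj g _ _ h

variable {D}

/-- the maps of the coset graphs -/
def uu {H H' : Ix D} (h : H ≤ H') (z : UU D H) : UU D H' := ⟨z.1, Subgroup.quotientMapOfLE (h z.1) z.2⟩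

theorem uu_vx {H H' : Ix D} (h : H ≤ H') (r : R) (g : G) : uu h (vx D H r g) = vx D H' r g := rfl

theorem uu_smul {H H' : Ix D} (h : H ≤ H') (g : G) (z : UU D H) : uu h (g • z) = g • uu h z := by
  obtain ⟨r, k, rfl⟩ := vx_surj D H z
  rfl

theorem pp_uu {H H' : Ix D} (h : H ≤ H') (z : UU D H) : pp D H' (uu h z) = pp D H z := by
  obtain ⟨r, k, rfl⟩ := vx_surj D H z
  rw [uu_vx, pp_vx, pp_vx]

theorem uu_adj {H H' : Ix D} (h : H ≤ H') (a b : UU D H) (hab : (ZZ D H).Adj a b) : (ZZ D H').Adj (uu h a) (uu h b) := by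
  rw [ZZ_adj, pp_uu, pp_uu]
  exact hab

theorem uu_id {H : Ix D} (h : H ≤ H) (z : UU D H) : uu h z = z := by
  obtain ⟨r, k, rfl⟩ := vx_surj D H z
  rfl

theorem uu_comp {H H' H'' : Ix D} (h : H ≤ H') (h' : H' ≤ H'') (h'' : H ≤ H'') (z : UU D H) :
    uu h' (uu h z) = uu h'' z := by
  obtain ⟨r, k, rfl⟩ := vx_surj D H z
  rfl

/-- vertices over the same vertex of the tree are identified at a later stage -/
theorem merge {H : Ix D} (a b : UU D H) (h : pp D H a = pp D H b) : ∃ (H' : Ix D) (h' : H ≤ H'), uu h' a = uu h' b := by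
  classical
  obtain ⟨r, g, rfl⟩ := vx_surj D H a
  obtain ⟨s, k, rfl⟩ := vx_surj D H b
  rw [pp_vx, pp_vx] at h
  have h1 : (k⁻¹ * g) • D.ρ r = D.ρ s := by rw [mul_smul, h, inv_smul_smul]
  have hrs := D.hi r s _ h1
  subst hrs
  have h2 : (g⁻¹ * k) • D.ρ r = D.ρ r := by rw [mul_smul, ← h, inv_smul_smul]
  obtain ⟨K, hK, hK1, hK2⟩ := D.big r (H.1 r) (g⁻¹ * k) (H.2 r) h2
  let H' : Ix D := ⟨Function.update H.1 r K, fun s => by
    by_cases hs : s = r
    · subst hs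
      rw [Function.update_self]
      exact hK
    · rw [Function.update_of_ne hs]
      exact H.2 s⟩
  have hH' : H ≤ H' := by
    intro s
    show H.1 s ≤ Function.update H.1 r K s
    by_cases hs : s = r
    · subst hs
      rw [Function.update_self]
      exact hK1
    · rw [Function.update_of_ne hs]
  refine ⟨H', hH', ?_⟩
  rw [uu_vx, uu_vx, vx_eq]
  show g⁻¹ * k ∈ Function.update H.1 r K r
  rw [Function.update_self]
  exact hK2

theorem Ix_dir (H H' : Ix D) : ∃ H'' : Ix D, H ≤ H'' ∧ H' ≤ H'' := by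
  choose K h1 h2 h3 using fun r => D.dir r (H.1 r) (H'.1 r) (H.2 r) (H'.2 r)
  exact ⟨⟨K, h1⟩, h2, h3⟩

theorem Ix_ne (D : Dat G V R) : Nonempty (Ix D) := by
  choose K hK using D.ne
  exact ⟨⟨K, hK⟩⟩

/-- the coset graph is connected if the tree has an edge -/
theorem ZZ_conn (H : Ix D) {v w : V} (hvw : D.X.Adj v w) (a b : UU D H) : (ZZ D H).Reachable a b := by
  have hne : ∀ x : V, ∃ y, D.X.Adj x y := by
    intro x
    obtain ⟨p⟩ := D.hX.tree.connected x v
    cases p with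
    | nil => exact ⟨w, hvw⟩
    | cons h p => exact ⟨_, h⟩
  have key : ∀ (x y : V) (p : D.X.Walk x y) (a : UU D H), pp D H a = x → ∃ b, pp D H b = y ∧ (ZZ D H).Reachable a b := by
    intro x y p
    induction p with
    | nil => intro a ha; exact ⟨a, ha, SimpleGraph.Reachable.refl _⟩
    | @cons x z y hxz p ih =>
      intro a ha
      obtain ⟨c, hc⟩ := pp_surj D H z
      obtain ⟨b, hb, h2⟩ := ih c hc
      refine ⟨b, hb, (SimpleGraph.Adj.reachable ?_).trans h2⟩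
      rw [ZZ_adj, ha, hc]
      exact hxz
  obtain ⟨p⟩ := D.hX.tree.connected (pp D H a) (pp D H b)
  obtain ⟨c, hc, h1⟩ := key _ _ p a rfl
  refine h1.trans ?_
  obtain ⟨y, hy⟩ := hne (pp D H b)
  obtain ⟨d, hd⟩ := pp_surj D H y
  have e1 : (ZZ D H).Adj c d := by rw [ZZ_adj, hc, hd]; exact hy
  have e2 : (ZZ D H).Adj b d := by rw [ZZ_adj, hd]; exact hy
  exact e1.reachable.trans e2.symm.reachable

end Pool.Agent.H38.AP
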