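import Pool.Agent.H38.AP.App

/-!
# Groups acting on trees as colimits of groups acting on trees with finitely generated vertex stabilisers
-/

set_option autoImplicit false

namespace Pool.Agent.H38.AP

open Pool.Agent.H93.TR Pool.Agent.H98.FJ

variable {C : (G : Type) → [Group G] → Prop}

/-- finitely generated subgroups of the stabilisers -/
noncomputable def Dv {G V : Type} [Group G] [MulAction G V] {X : SimpleGraph V} (hX : OnTree G X) (w : V) :
    Dat G V (MulAction.orbitRel.Quotient G V) where
  X := X
  ρ := Quotient.out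
  J r K := K.FG ∧ ∀ k ∈ K, k • r.out = r.out
  hX := hX
  hs v := by
    have h : (MulAction.orbitRel G V) ((Quotient.mk _ v : MulAction.orbitRel.Quotient G V).out) v :=
      Quotient.mk_out v
    obtain ⟨g, hg⟩ := MulAction.orbitRel_apply.1 h
    refine ⟨Quotient.mk _ v, g⁻¹, ?_⟩
    rw [← hg]
    exact inv_smul_smul g v
  hi r r' g h := by
    rw [← Quotient.out_eq r, ← Quotient.out_eq r']
    refine (Quotient.sound ?_).symm
    exact MulAction.orbitRel_apply.2 ⟨g, h⟩
  fx r K h k hk := h.2 k hk
  ne r := ⟨⊥, ⟨∅, by simp⟩, fun k hk => by rw [Subgroup.mem_bot.1 hk, one_smul]⟩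
  dir r K K' h h' := by
    refine ⟨K ⊔ K', ⟨h.1.sup h'.1, ?_⟩, le_sup_left, le_sup_right⟩
    have : K ⊔ K' ≤ MulAction.stabilizer G r.out := sup_le h.2 h'.2
    exact this
  big r K c h hc := by
    refine ⟨K ⊔ Subgroup.zpowers c, ⟨h.1.sup ?_, ?_⟩, le_sup_left,
      (le_sup_right : Subgroup.zpowers c ≤ _) (Subgroup.mem_zpowers c)⟩
    · exact ⟨{c}, by simp [Subgroup.zpowers_eq_closure]⟩
    · have : K ⊔ Subgroup.zpowers c ≤ MulAction.stabilizer G r.out :=
        sup_le h.2 ((Subgroup.zpowers_le).2 hc)
      exact this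
  r0 := Quotient.mk _ w

/-- **Approximation, finitely generated vertex stabilisers.** -/
theorem fg_vert (hC : Inherits C) {G V : Type} [Group G] [MulAction G V] {X : SimpleGraph V} (hX : OnTree G X)
    (hT : ∀ (M T : Type) [Group M] [MulAction M T] (Y : SimpleGraph T), OnTree M Y →
      (NoInv X (⊤ : Subgroup G) → NoInv Y (⊤ : Subgroup M)) →
      (∀ t : T, Group.FG (MulAction.stabilizer M t) ∧
        ∃ (x : V) (f : MulAction.stabilizer M t →* MulAction.stabilizer G x), Function.Injective f) →
      (∀ s t : T, Y.Adj s t → ∃ x y : V, X.Adj x y ∧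
          ∃ f : (MulAction.stabilizer M s ⊓ MulAction.stabilizer M t : Subgroup M) →*
            (MulAction.stabilizer G x ⊓ MulAction.stabilizer G y : Subgroup G), Function.Injective f) → C M) : C G := by
  by_cases hne : ∃ v w : V, X.Adj v w
  · obtain ⟨v, w, hvw⟩ := hne
    refine approx hC (Dv hX w) hvw ?_
    let D := Dv hX w
    change ∀ H : Ix D, C (Gp D H)
    intro H
    have hpi : ∀ (m : Gp D H) (t : TT D H), pr G (YY D H) (PP D H) m • QQ D H t = QQ D H (m • t) := by
      intro m t
      show _ • pp D H (PP D H t) = pp D H (PP D H (m • t))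
      rw [smul_pi m, pp_smul]
    refine hT (Gp D H) (TT D H) (YY D H) (onTree (YY_tree D H)) ?_ ?_ ?_
    · rintro hinv m - s t hst h1 h2
      have h3 : X.Adj (QQ D H s) (QQ D H t) := QQ_adj D H s t hst
      have h4 := hpi m s
      have h5 := hpi m t
      rw [h1] at h4
      rw [h2] at h5
      exact hinv _ (Subgroup.mem_top _) _ _ h3 h4 h5
    · intro t
      refine ⟨?_, ?_⟩
      · obtain ⟨r, K, hK, ⟨e⟩⟩ := exists_vertex (D := D) H t
        have h3 : Group.FG K := (Group.fg_iff_subgroup_fg _).2 hK.1
        exact Group.fg_of_surjective (hG := h3) (f := e.toMonoidHom) e.surjective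
      · obtain ⟨e⟩ := stab_equiv (YY_tree D H) (YY_cov D H) (ZZ_smul D H) t
        refine ⟨QQ D H t, (Subgroup.inclusion (fun k hk => stab_le D H _ k hk)).comp e.symm.toMonoidHom, ?_⟩
        intro a b h
        have h1 := congrArg (fun x : MulAction.stabilizer G (QQ D H t) => (x : G)) h
        exact e.symm.injective (Subtype.ext h1)
    · intro s t hst
      obtain ⟨e⟩ := edge_equiv (YY_tree D H) (YY_cov D H) (ZZ_smul D H) s t hst
      have hle : (MulAction.stabilizer G (PP D H s) ⊓ MulAction.stabilizer G (PP D H t) : Subgroup G) ≤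
          MulAction.stabilizer G (QQ D H s) ⊓ MulAction.stabilizer G (QQ D H t) :=
        fun k hk => ⟨stab_le D H _ k hk.1, stab_le D H _ k hk.2⟩
      refine ⟨QQ D H s, QQ D H t, QQ_adj D H s t hst, (Subgroup.inclusion hle).comp e.symm.toMonoidHom, ?_⟩
      intro a b h
      have h1 := congrArg (fun x : (MulAction.stabilizer G (QQ D H s) ⊓ MulAction.stabilizer G (QQ D H t) : Subgroup G) =>
        (x : G)) h
      exact e.symm.injective (Subtype.ext h1)
  · -- a single vertex
    refine hC.union (ι := Finset G) (fun s => Subgroup.closure (s : Set G)) (fun s t hst =>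
      Subgroup.closure_mono (by exact_mod_cast hst)) (fun g => ⟨{g}, Subgroup.subset_closure (by simp)⟩) fun F => ?_
    have hfg' : (Subgroup.closure (F : Set G)).FG := ⟨F, rfl⟩
    generalize Subgroup.closure (F : Set G) = K at hfg'
    have hfg : Group.FG K := (Group.fg_iff_subgroup_fg _).2 hfg'
    have hfix : ∀ (g : G) (v : V), g • v = v := by
      intro g v
      obtain ⟨p⟩ := hX.tree.connected (g • v) v
      generalize g • v = u at p
      cases p with
      | nil => rfl
      | cons h p => exact (hne ⟨_, _, h⟩).elim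
    refine hT K V X ⟨hX.tree, fun g v w h => hX.adj (g : G) v w h⟩ ?_ ?_ ?_
    · intro _ n _ v w h _ _
      exact hne ⟨v, w, h⟩
    · intro t
      have hle : ∀ k : K, k • t = t := fun k => hfix (k : G) t
      let f : K →* MulAction.stabilizer K t :=
        { toFun := fun k => ⟨k, hle k⟩
          map_one' := rfl
          map_mul' := fun _ _ => rfl }
      have hf : Function.Surjective f := fun k => ⟨k.1, rfl⟩
      refine ⟨Group.fg_of_surjective (hG := hfg) (f := f) hf, t, ?_⟩
      refine ⟨{ toFun := fun k => ⟨(k.1 : G), hfix _ t⟩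
                map_one' := rfl
                map_mul' := fun _ _ => rfl }, ?_⟩
      intro a b h
      exact Subtype.ext (Subtype.ext (congrArg (fun x : MulAction.stabilizer G t => (x : G)) h))
    · intro s t h
      exact (hne ⟨s, t, h⟩).elim

end Pool.Agent.H38.AP
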